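import Pool.Agent.H199Z.Plane

set_option autoImplicit false

namespace Pool.Agent.Results.MP_359994_co.ASixColours

/-- The edges of the complete `k`-graph on `n` vertices: the `k`-element sets of vertices. -/
abbrev Edge (n k : ℕ) : Type := {e : Finset (Fin n) // e.card = k}

/-- `(X, F)` is a Berge-cycle with core `X` and edge set `F` in the complete `k`-graph on `n`
vertices: either there are `ℓ ≥ 2`, distinct vertices `v 0, …, v (ℓ - 1)` forming `X` and distinct
edges `e 0, …, e (ℓ - 1)` forming `F` with `v i, v (i + 1 mod ℓ) ∈ e i`; or it is one of the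
degenerate cycles `({v}, ∅)` and `({u, v}, {e})` with `u, v ∈ e`. -/
def IsBergeCycle {n k : ℕ} (X : Finset (Fin n)) (F : Finset (Edge n k)) : Prop :=
  (∃ (ℓ : ℕ) (v : ℕ → Fin n) (e : ℕ → Edge n k), 2 ≤ ℓ ∧
      Set.InjOn v (Set.Iio ℓ) ∧ Set.InjOn e (Set.Iio ℓ) ∧
      X = (Finset.range ℓ).image v ∧ F = (Finset.range ℓ).image e ∧
      ∀ i < ℓ, v i ∈ (e i).1 ∧ v ((i + 1) % ℓ) ∈ (e i).1) ∨
  (∃ v : Fin n, X = {v} ∧ F = ∅) ∨
  (∃ (u v : Fin n) (e : Edge n k), u ∈ e.1 ∧ v ∈ e.1 ∧ X = {u, v} ∧ F = {e})

open Pool.Agent.H199Z.Plane in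
/-- For `s = 6` and `k = 2`, so `r = s (k - 1) = 6` colours: for every `c` there are `n` and a
`6`-edge-colouring of the complete `2`-graph on `n` vertices in which every family of at most `6`
monochromatic Berge-cycles with pairwise disjoint cores leaves more than `c` vertices uncovered. -/
theorem result (c : ℕ) :
    ∃ (n : ℕ) (φ : Edge n 2 → Fin (6 * (2 - 1))),
      ∀ m ≤ 6, ∀ (X : Fin m → Finset (Fin n)) (F : Fin m → Finset (Edge n 2)),
        (∀ j, IsBergeCycle (X j) (F j)) →
        (∀ j, ∀ e ∈ F j, ∀ e' ∈ F j, φ e = φ e') →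
        (∀ i j, i ≠ j → Disjoint (X i) (X j)) →
        c < (Finset.univ \ Finset.univ.biUnion X).card := by
  classical
  obtain ⟨n, part, hpart, hfib⟩ := exists_part (c + 7)
  refine ⟨n, fun e => ⟨chi part e.1, chi_lt part e.1⟩, fun m hm X F hcyc hmono hdisj => ?_⟩
  refine bound c part hpart hfib (by simpa using hm) X hdisj fun j => ?_
  rcases hcyc j with ⟨ℓ, v, e, hl, hv, _, hX, hF, he⟩ | ⟨v, hX, _⟩ | ⟨a, b, e, ha, hb, hX, _⟩
  · rw [hX]
    refine path_data part hpart ℓ v (chi part (e 0).1) (chi_lt _ _) hv fun i hi => ?_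
    obtain ⟨h1, h2⟩ := he i (by omega)
    rw [Nat.mod_eq_of_lt hi] at h2
    have hne : v i ≠ v (i + 1) := fun hh => by
      have := hv (show i ∈ Set.Iio ℓ from (by omega : i < ℓ)) (show i + 1 ∈ Set.Iio ℓ from hi) hh
      omega
    rw [← chi_eq part hpart (e i).1 (e i).2 hne h1 h2]
    have hmem : ∀ t < ℓ, e t ∈ F j := fun t ht => by
      rw [hF]; exact Finset.mem_image.2 ⟨t, Finset.mem_range.2 ht, rfl⟩
    exact congrArg Fin.val (hmono j _ (hmem i (by omega)) _ (hmem 0 (by omega)))
  · have := path_data part hpart 1 (fun _ => v) 0 (by norm_num)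
      (fun a ha b hb _ => by
        have h1 : a < 1 := ha
        have h2 : b < 1 := hb
        omega) (fun i hi => by omega)
    rw [hX]
    simpa using this
  · by_cases hab : a = b
    · have := path_data part hpart 1 (fun _ => a) 0 (by norm_num)
        (fun a ha b hb _ => by
          have h1 : a < 1 := ha
          have h2 : b < 1 := hb
          omega) (fun i hi => by omega)
      rw [hX, ← hab]
      simpa using this
    · have := path_data part hpart 2 (fun i => if i = 0 then a else b) (dir (part a) (part b))
        (dir_lt _ _)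
        (fun s hs t ht hst => by
          have h1 : s < 2 := hs
          have h2 : t < 2 := ht
          interval_cases s <;> interval_cases t
          · rfl
          · exact absurd (by simpa using hst) hab
          · exact absurd (by simpa using hst.symm) hab
          · rfl)
        (fun i hi => by
          have : i = 0 := by omega
          subst this
          simp)
      have hX' : (Finset.range 2).image (fun i => if i = 0 then a else b) = {a, b} := by
        simp [Finset.range_add_one, Finset.pair_comm]
      rw [hX, ← hX']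
      exact this

end Pool.Agent.Results.MP_359994_co.ASixColours
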